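import Mathlib

/-!
QH-8: reduction of the quantitative Helly theorem for the diameter from convex sets to polytopes
(MP_882a21_co).
-/

set_option autoImplicit false

namespace Pool.Agent.Helper59.QH

open scoped BigOperators RealInnerProductSpace Topology

/-- Outer approximation of an intersection of compact convex sets by finitely many half-spaces. -/
theorem approx {d : ℕ} (F : Finset (Set (EuclideanSpace ℝ (Fin d)))) (hne : F.Nonempty)
    (K' : Set (EuclideanSpace ℝ (Fin d)) → Set (EuclideanSpace ℝ (Fin d)))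
    (hcomp : ∀ K, IsCompact (K' K)) (hconv : ∀ K, Convex ℝ (K' K))
    (hM : (⋂ K ∈ F, K' K).Nonempty) (η : ℝ) (hη : 0 < η) :
    ∃ (n : ℕ) (a : Fin n → EuclideanSpace ℝ (Fin d)) (b : Fin n → ℝ)
      (κ : Fin n → Set (EuclideanSpace ℝ (Fin d))),
      (∀ i, κ i ∈ F ∧ ∀ y ∈ K' (κ i), ⟪a i, y⟫ < b i) ∧
      ∀ z : EuclideanSpace ℝ (Fin d), (∀ i, ⟪a i, z⟫ ≤ b i) →
        Metric.infDist z (⋂ K ∈ F, K' K) < η := by
  classical
  set M : Set (EuclideanSpace ℝ (Fin d)) := ⋂ K ∈ F, K' K with hMdef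
  have hMclosed : IsClosed M := isClosed_biInter (fun K _ => (hcomp K).isClosed)
  obtain ⟨K0, hK0⟩ := hne
  have hMsub : M ⊆ K' K0 := Set.biInter_subset_of_mem hK0
  have hMbdd : Bornology.IsBounded M := (hcomp K0).isBounded.subset hMsub
  set Sf : Set (EuclideanSpace ℝ (Fin d)) := {z | Metric.infDist z M = η} with hSf
  have hSc : IsCompact Sf := by
    apply Metric.isCompact_of_isClosed_isBounded
    · exact isClosed_eq (Metric.continuous_infDist_pt M) continuous_const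
    · obtain ⟨R, hR⟩ := hMbdd.subset_closedBall 0
      apply (Metric.isBounded_closedBall (x := (0 : EuclideanSpace ℝ (Fin d)))
        (r := R + (η + 1))).subset
      intro z hz
      have hz' : Metric.infDist z M < η + 1 := by
        have : Metric.infDist z M = η := hz
        linarith
      obtain ⟨m, hm, hdm⟩ := (Metric.infDist_lt_iff hM).1 hz'
      have h1 := hR hm
      rw [Metric.mem_closedBall] at h1 ⊢
      calc dist z 0 ≤ dist z m + dist m 0 := dist_triangle _ _ _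
        _ ≤ R + (η + 1) := by linarith
  have hsep : ∀ z ∈ Sf, ∃ K ∈ F, ∃ (a : EuclideanSpace ℝ (Fin d)) (u : ℝ),
      (∀ y ∈ K' K, ⟪a, y⟫ < u) ∧ u < ⟪a, z⟫ := by
    intro z hz
    have hzM : z ∉ M := by
      intro h
      have h1 : Metric.infDist z M = η := hz
      rw [Metric.infDist_zero_of_mem h] at h1
      exact absurd h1 hη.ne
    have : ∃ K ∈ F, z ∉ K' K := by
      by_contra hcon
      push Not at hcon
      exact hzM (Set.mem_iInter₂.2 hcon)
    obtain ⟨K, hK, hzK⟩ := this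
    obtain ⟨f, u, h1, h2⟩ := geometric_hahn_banach_closed_point (hconv K) (hcomp K).isClosed hzK
    refine ⟨K, hK, (InnerProductSpace.toDual ℝ _).symm f, u, ?_, ?_⟩
    · intro y hy
      rw [InnerProductSpace.toDual_symm_apply]
      exact h1 y hy
    · rw [InnerProductSpace.toDual_symm_apply]
      exact h2
  choose! κ hκ A u hu1 hu2 using hsep
  obtain ⟨t, ht1, ht2⟩ := hSc.elim_nhds_subcover (fun z => {w | u z < ⟪A z, w⟫}) (fun z hz => by
    apply IsOpen.mem_nhds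
    · exact isOpen_lt continuous_const (continuous_const.inner continuous_id)
    · exact hu2 z hz)
  refine ⟨t.card, fun i => A (t.equivFin.symm i), fun i => u (t.equivFin.symm i),
    fun i => κ (t.equivFin.symm i), ?_, ?_⟩
  · intro i
    have hi := ht1 _ (t.equivFin.symm i).2
    exact ⟨hκ _ hi, hu1 _ hi⟩
  · intro z hz
    by_contra hcon
    push Not at hcon
    obtain ⟨x0, hx0⟩ := hM
    have hcont : ContinuousOn (fun s : ℝ => Metric.infDist (x0 + s • (z - x0)) M)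
        (Set.Icc 0 1) := by
      apply Continuous.continuousOn
      exact (Metric.continuous_infDist_pt M).comp (by fun_prop)
    have hivt := intermediate_value_Icc (zero_le_one : (0 : ℝ) ≤ 1) hcont
    have hmem : η ∈ Set.Icc (Metric.infDist (x0 + (0 : ℝ) • (z - x0)) M)
        (Metric.infDist (x0 + (1 : ℝ) • (z - x0)) M) := by
      rw [zero_smul, add_zero, one_smul, add_sub_cancel, Metric.infDist_zero_of_mem hx0]
      exact ⟨hη.le, hcon⟩
    obtain ⟨s, hs, hsη⟩ := hivt hmem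
    have hw : x0 + s • (z - x0) ∈ Sf := hsη
    have hcov := ht2 hw
    rw [Set.mem_iUnion₂] at hcov
    obtain ⟨w, hwt, hw2⟩ := hcov
    have hw2 : u w < ⟪A w, x0 + s • (z - x0)⟫ := hw2
    have h1 : ⟪A w, z⟫ ≤ u w := by
      have := hz (t.equivFin ⟨w, hwt⟩)
      simpa using this
    have h2 : ⟪A w, x0⟫ < u w := by
      apply hu1 w (ht1 w hwt)
      exact Set.mem_iInter₂.1 hx0 (κ w) (hκ w (ht1 w hwt))
    rw [inner_add_right, inner_smul_right, inner_sub_right] at hw2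
    nlinarith [hs.1, hs.2]

/-- QH-8 (from convex sets to polytopes). -/
theorem reduction {d : ℕ} (hd : 0 < d) (ρ : ℝ) (hρ : 0 < ρ)
    (hpoly : ∀ (n : ℕ) (a : Fin n → EuclideanSpace ℝ (Fin d)) (b : Fin n → ℝ) (D : ℝ),
      (∀ x y : EuclideanSpace ℝ (Fin d), (∀ i, ⟪a i, x⟫ ≤ b i) → (∀ i, ⟪a i, y⟫ ≤ b i) →
        ‖x - y‖ ≤ D) →
      (∃ x₀ : EuclideanSpace ℝ (Fin d), ∀ i, ⟪a i, x₀⟫ < b i) →
      ∃ s : Finset (Fin n), s.card ≤ 2 * d ∧
        ∀ x y : EuclideanSpace ℝ (Fin d), (∀ i ∈ s, ⟪a i, x⟫ ≤ b i) →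
          (∀ i ∈ s, ⟪a i, y⟫ ≤ b i) → ‖x - y‖ ≤ ρ * D)
    (F : Finset (Set (EuclideanSpace ℝ (Fin d)))) (hconv : ∀ K ∈ F, Convex ℝ K)
    (hF : ∀ G ⊆ F, G.card ≤ 2 * d → 1 ≤ Metric.ediam (⋂ K ∈ G, K)) :
    ENNReal.ofReal (1 / ρ) ≤ Metric.ediam (⋂ K ∈ F, K) := by
  classical
  rcases F.eq_empty_or_nonempty with rfl | hFne
  · -- the whole space
    have h1 : (0 : EuclideanSpace ℝ (Fin d)) ∈
        ⋂ K ∈ (∅ : Finset (Set (EuclideanSpace ℝ (Fin d)))), K := by simp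
    have h2 : EuclideanSpace.single (⟨0, hd⟩ : Fin d) (1 / ρ) ∈
        ⋂ K ∈ (∅ : Finset (Set (EuclideanSpace ℝ (Fin d)))), K := by simp
    refine le_trans ?_ (Metric.edist_le_ediam_of_mem h2 h1)
    rw [edist_dist, dist_zero_right, PiLp.norm_single, Real.norm_eq_abs,
      abs_of_pos (by positivity)]
  by_contra hcon
  push Not at hcon
  set r := Metric.ediam (⋂ K ∈ F, K) with hr
  have hrtop : r ≠ ⊤ := ne_top_of_lt hcon
  set D0 : ℝ := r.toReal with hD0
  have hD0nn : 0 ≤ D0 := ENNReal.toReal_nonneg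
  have hD0lt : D0 < 1 / ρ := ENNReal.toReal_lt_of_lt_ofReal hcon
  set η : ℝ := (1 / ρ - D0) / 4 with hη
  have hηpos : 0 < η := by rw [hη]; linarith
  set c : ℝ := ρ * (D0 + 2 * η) with hc
  have hc1 : c < 1 := by
    have h1 : ρ * (D0 + 2 * η) < ρ * (1 / ρ) := by
      apply mul_lt_mul_of_pos_left _ hρ
      rw [hη]
      linarith
    rw [mul_one_div_cancel hρ.ne'] at h1
    exact h1
  have hc0 : 0 ≤ c := by positivity
  -- long segments
  have hseg : ∀ G ⊆ F, G.card ≤ 2 * d → ∃ p ∈ ⋂ K ∈ G, K, ∃ q ∈ ⋂ K ∈ G, K,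
      c < dist p q := by
    intro G hG hGc
    by_contra hno
    push Not at hno
    have h1 : Metric.ediam (⋂ K ∈ G, K) ≤ ENNReal.ofReal c := by
      apply Metric.ediam_le
      intro x hx y hy
      rw [edist_dist]
      exact ENNReal.ofReal_le_ofReal (hno x hx y hy)
    have h2 : ENNReal.ofReal c < 1 := by
      rw [← ENNReal.ofReal_one]
      exact (ENNReal.ofReal_lt_ofReal_iff one_pos).2 hc1
    exact absurd ((hF G hG hGc).trans h1) (not_le.2 h2)
  have hseg' : ∀ G : Finset (Set (EuclideanSpace ℝ (Fin d))),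
      ∃ p q : EuclideanSpace ℝ (Fin d), (G ⊆ F ∧ G.card ≤ 2 * d) →
      (p ∈ ⋂ K ∈ G, K) ∧ (q ∈ ⋂ K ∈ G, K) ∧ c < dist p q := by
    intro G
    by_cases h : G ⊆ F ∧ G.card ≤ 2 * d
    · obtain ⟨p, hp, q, hq, hpq⟩ := hseg G h.1 h.2
      exact ⟨p, q, fun _ => ⟨hp, hq, hpq⟩⟩
    · exact ⟨0, 0, fun h' => absurd h' h⟩
  choose p q hpq using hseg'
  set K' : Set (EuclideanSpace ℝ (Fin d)) → Set (EuclideanSpace ℝ (Fin d)) := fun K =>
    convexHull ℝ {z | ∃ G ∈ F.powerset.filter (fun G => G.card ≤ 2 * d),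
      K ∈ G ∧ (z = p G ∨ z = q G)} with hK'
  have hfin : ∀ K, {z | ∃ G ∈ F.powerset.filter (fun G => G.card ≤ 2 * d),
      K ∈ G ∧ (z = p G ∨ z = q G)}.Finite := by
    intro K
    apply Set.Finite.subset ((F.powerset.filter (fun G => G.card ≤ 2 * d)).image p ∪
      (F.powerset.filter (fun G => G.card ≤ 2 * d)).image q).finite_toSet
    rintro z ⟨G, hG, _, hz | hz⟩
    · rw [hz]
      exact Finset.mem_coe.2 (Finset.mem_union_left _ (Finset.mem_image_of_mem p hG))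
    · rw [hz]
      exact Finset.mem_coe.2 (Finset.mem_union_right _ (Finset.mem_image_of_mem q hG))
  have hcomp : ∀ K, IsCompact (K' K) := fun K => (hfin K).isCompact_convexHull (𝕜 := ℝ)
  have hconv' : ∀ K, Convex ℝ (K' K) := fun K => convex_convexHull ℝ _
  have hmemG : ∀ G ⊆ F, G.card ≤ 2 * d → ∀ K ∈ G, p G ∈ K' K ∧ q G ∈ K' K := by
    intro G hG hGc K hK
    have hG' : G ∈ F.powerset.filter (fun G => G.card ≤ 2 * d) :=
      Finset.mem_filter.2 ⟨Finset.mem_powerset.2 hG, hGc⟩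
    exact ⟨subset_convexHull ℝ _ ⟨G, hG', hK, Or.inl rfl⟩,
      subset_convexHull ℝ _ ⟨G, hG', hK, Or.inr rfl⟩⟩
  have hK'sub : ∀ K ∈ F, K' K ⊆ K := by
    intro K hK
    apply convexHull_min _ (hconv K hK)
    rintro z ⟨G, hG, hKG, hz⟩
    rw [Finset.mem_filter, Finset.mem_powerset] at hG
    have h1 := hpq G hG
    rcases hz with rfl | rfl
    · exact Set.mem_iInter₂.1 h1.1 K hKG
    · exact Set.mem_iInter₂.1 h1.2.1 K hKG
  have hM : (⋂ K ∈ F, K' K).Nonempty := by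
    apply Convex.helly_theorem' (𝕜 := ℝ) (fun K _ => hconv' K)
    intro I hI hIc
    rw [finrank_euclideanSpace_fin] at hIc
    exact ⟨p I, Set.mem_iInter₂.2 (fun K hK => (hmemG I hI (by omega) K hK).1)⟩
  obtain ⟨n, a, b, κ, h1, h2⟩ := approx F hFne K' hcomp hconv' hM η hηpos
  have hMF : (⋂ K ∈ F, K' K) ⊆ ⋂ K ∈ F, K := Set.iInter₂_mono (fun K hK => hK'sub K hK)
  have hMd : ∀ x ∈ ⋂ K ∈ F, K' K, ∀ y ∈ ⋂ K ∈ F, K' K, dist x y ≤ D0 := by
    intro x hx y hy
    have h3 : edist x y ≤ r := Metric.edist_le_ediam_of_mem (hMF hx) (hMF hy)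
    rw [dist_edist, hD0]
    exact ENNReal.toReal_mono hrtop h3
  obtain ⟨s, hs, hs'⟩ := hpoly n a b (D0 + 2 * η) (by
    intro x y hx hy
    obtain ⟨x', hx', hdx⟩ := (Metric.infDist_lt_iff hM).1 (h2 x hx)
    obtain ⟨y', hy', hdy⟩ := (Metric.infDist_lt_iff hM).1 (h2 y hy)
    rw [← dist_eq_norm]
    have h3 := hMd x' hx' y' hy'
    have h4 : dist x y ≤ dist x x' + dist x' y' + dist y' y := dist_triangle4 _ _ _ _
    rw [dist_comm y' y] at h4
    linarith) (by
    obtain ⟨x0, hx0⟩ := hM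
    exact ⟨x0, fun i => (h1 i).2 x0 (Set.mem_iInter₂.1 hx0 _ (h1 i).1)⟩)
  set G : Finset (Set (EuclideanSpace ℝ (Fin d))) := s.image κ with hG
  have hGF : G ⊆ F := by
    intro K hK
    obtain ⟨i, _, rfl⟩ := Finset.mem_image.1 hK
    exact (h1 i).1
  have hGc : G.card ≤ 2 * d := Finset.card_image_le.trans hs
  have h3 := hmemG G hGF hGc
  have h4 := hs' (p G) (q G)
    (fun i hi => ((h1 i).2 _ (h3 (κ i) (Finset.mem_image_of_mem κ hi)).1).le)
    (fun i hi => ((h1 i).2 _ (h3 (κ i) (Finset.mem_image_of_mem κ hi)).2).le)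
  rw [← dist_eq_norm] at h4
  exact absurd (hpq G ⟨hGF, hGc⟩).2.2 (not_lt.2 h4)

end Pool.Agent.Helper59.QH
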